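import Mathlib

/-!
# Extending homomorphisms from `K ⊓ M₀` to `K`, where `M₀` is generated by part of a basis

If `M` is free with basis `b`, `M₀` is generated by part of the basis and `K ≤ M`, then every
homomorphism from `K ⊓ M₀` to a commutative group extends to `K`.
-/

set_option autoImplicit false

namespace Pool.Agent.R655

open Classical

section

variable {M : Type*} [Group M] {ι : Type*} (b : FreeGroupBasis ι M) (S : Set ι)
variable (K : Subgroup M) {A : Type*} [CommGroup A]

/-- the subgroup generated by the basis elements with index in `S` -/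
def part : Subgroup M := Subgroup.closure {g | ∃ j ∈ S, b j = g}

variable (φ : ↥(K ⊓ part b S) →* A)

/-- `φ` extended by `1` -/
noncomputable def phat (m : M) : A := if h : m ∈ K ⊓ part b S then φ ⟨m, h⟩ else 1

lemma phat_mul {m n : M} (hm : m ∈ K ⊓ part b S) (hn : n ∈ K ⊓ part b S) :
    phat b S K φ (m * n) = phat b S K φ m * phat b S K φ n := by
  unfold phat
  rw [dif_pos hm, dif_pos hn, dif_pos ((K ⊓ part b S).mul_mem hm hn), ← map_mul]
  rfl

lemma phat_inv {m : M} (hm : m ∈ K ⊓ part b S) :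
    phat b S K φ m⁻¹ = (phat b S K φ m)⁻¹ := by
  unfold phat
  rw [dif_pos hm, dif_pos ((K ⊓ part b S).inv_mem hm), ← map_inv]
  rfl

lemma phat_one : phat b S K φ 1 = 1 := by
  unfold phat
  rw [dif_pos (K ⊓ part b S).one_mem]
  exact map_one φ

/-- base point of `M ⧸ K` -/
def w0 : M ⧸ K := ((1 : M) : M ⧸ K)

/-- the orbit of the base point under `part b S` -/
def orb : Set (M ⧸ K) := {w | ∃ s ∈ part b S, s • w0 K = w}

/-- a transversal -/
noncomputable def tr (w : M ⧸ K) : M :=
  if h : w ∈ orb b S K then h.choose else 1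

lemma tr_spec {w : M ⧸ K} (h : w ∈ orb b S K) :
    tr b S K w ∈ part b S ∧ tr b S K w • w0 K = w := by
  unfold tr
  rw [dif_pos h]
  exact h.choose_spec

lemma orb_smul {w : M ⧸ K} (h : w ∈ orb b S K) {m : M} (hm : m ∈ part b S) :
    m • w ∈ orb b S K := by
  obtain ⟨s, hs, rfl⟩ := h
  exact ⟨m * s, (part b S).mul_mem hm hs, by rw [mul_smul]⟩

lemma stab {m : M} (h : m • w0 K = w0 K) : m ∈ K := by
  have h1 : (((m * 1 : M)) : M ⧸ K) = ((1 : M) : M ⧸ K) := h
  have := QuotientGroup.eq.1 h1.symm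
  simpa using this

lemma smul_w0 {m : M} (h : m ∈ K) : m • w0 K = w0 K := by
  have h1 : (((m * 1 : M)) : M ⧸ K) = ((1 : M) : M ⧸ K) := by
    apply QuotientGroup.eq.2
    simpa using h
  exact h1

/-- the element `tr(w)⁻¹ m tr(m⁻¹ w)` lies in `K ⊓ part` -/
lemma el_mem {w : M ⧸ K} (h : w ∈ orb b S K) {m : M} (hm : m ∈ part b S) :
    (tr b S K w)⁻¹ * m * tr b S K (m⁻¹ • w) ∈ K ⊓ part b S := by
  have h1 := tr_spec b S K h
  have h2 := tr_spec b S K (orb_smul b S K h ((part b S).inv_mem hm))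
  refine ⟨?_, ?_⟩
  · apply stab
    rw [mul_smul, mul_smul, h2.2, smul_inv_smul, inv_smul_eq_iff, h1.2]
  · exact (part b S).mul_mem ((part b S).mul_mem ((part b S).inv_mem h1.1) hm) h2.1

/-- cocycle values on the basis -/
noncomputable def cval (i : ι) : (M ⧸ K) → A := fun w =>
  if i ∈ S ∧ w ∈ orb b S K then
    phat b S K φ ((tr b S K w)⁻¹ * b i * tr b S K ((b i)⁻¹ • w)) else 1

/-- the lift of the identity to the semidirect product -/
noncomputable def lft : M →* SemidirectProduct ((M ⧸ K) → A) M mulAutArrow :=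
  b.lift fun i => ⟨cval b S K φ i, b i⟩

lemma lft_right (m : M) : (lft b S K φ m).right = m := by
  have h : (SemidirectProduct.rightHom).comp (lft b S K φ) = MonoidHom.id M := by
    apply b.ext_hom
    intro i
    simp [lft]
  exact DFunLike.congr_fun h m

/-- the cocycle -/
noncomputable def L (m : M) : (M ⧸ K) → A := (lft b S K φ m).left

lemma L_mul (m n : M) (w : M ⧸ K) :
    L b S K φ (m * n) w = L b S K φ m w * L b S K φ n (m⁻¹ • w) := by
  unfold L
  rw [map_mul, SemidirectProduct.mul_left, lft_right]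
  rfl

lemma L_one (w : M ⧸ K) : L b S K φ 1 w = 1 := by
  unfold L
  rw [map_one]
  rfl

lemma L_eq {m : M} (hm : m ∈ part b S) : ∀ w ∈ orb b S K,
    L b S K φ m w = phat b S K φ ((tr b S K w)⁻¹ * m * tr b S K (m⁻¹ • w)) := by
  induction hm using Subgroup.closure_induction with
  | mem x hx =>
    obtain ⟨j, hj, rfl⟩ := hx
    intro w hw
    have h1 : L b S K φ (b j) = cval b S K φ j := by
      unfold L lft
      simp
    rw [h1]
    unfold cval
    rw [if_pos ⟨hj, hw⟩]
  | one =>
    intro w hw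
    rw [L_one]
    simp [phat_one]
  | mul x y hx hy ihx ihy =>
    intro w hw
    have hx' : x ∈ part b S := hx
    have hy' : y ∈ part b S := hy
    have hxw := orb_smul b S K hw ((part b S).inv_mem hx')
    rw [L_mul, ihx w hw, ihy _ hxw, ← phat_mul b S K φ (el_mem b S K hw hx')
      (el_mem b S K hxw hy')]
    congr 1
    rw [mul_inv_rev, mul_smul]
    group
  | inv x hx ih =>
    intro w hw
    have hx' : x ∈ part b S := hx
    have hxw := orb_smul b S K hw hx'
    have h1 := L_mul b S K φ x x⁻¹ (x • w)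
    rw [mul_inv_cancel, L_one, ih _ hxw, inv_smul_smul] at h1
    have h2 := el_mem b S K hxw hx'
    rw [inv_smul_smul] at h2
    have h3 := eq_inv_of_mul_eq_one_right h1.symm
    rw [h3, ← phat_inv b S K φ h2]
    congr 1
    rw [inv_inv]
    group

/-- **Extension of homomorphisms from `K ⊓ part b S` to `K`.** -/
theorem exists_extension : ∃ Φ : K →* A, ∀ (k : M) (hk : k ∈ K ⊓ part b S),
    Φ ⟨k, hk.1⟩ = φ ⟨k, hk⟩ := by
  refine ⟨{ toFun := fun k => L b S K φ k (w0 K), map_one' := ?_, map_mul' := ?_ }, ?_⟩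
  · exact L_one b S K φ _
  · intro x y
    rw [Subgroup.coe_mul, L_mul, smul_w0 K (K.inv_mem x.2)]
  · intro k hk
    change L b S K φ k (w0 K) = φ ⟨k, hk⟩
    have hw : w0 K ∈ orb b S K := ⟨1, (part b S).one_mem, one_smul _ _⟩
    rw [L_eq b S K φ hk.2 _ hw, smul_w0 K (K.inv_mem hk.1)]
    have h1 := tr_spec b S K hw
    have h2 : tr b S K (w0 K) ∈ K ⊓ part b S := ⟨stab K h1.2, h1.1⟩
    rw [phat_mul b S K φ ((K ⊓ part b S).mul_mem ((K ⊓ part b S).inv_mem h2) hk) h2,
      phat_mul b S K φ ((K ⊓ part b S).inv_mem h2) hk, phat_inv b S K φ h2]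
    have h3 : phat b S K φ k = φ ⟨k, hk⟩ := by
      unfold phat
      rw [dif_pos hk]
    rw [h3, mul_comm, ← mul_assoc, mul_inv_cancel, one_mul]

end

end Pool.Agent.R655
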