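import Mathlib

/-!
# Positive words and conjugation in free groups

Main theorem: if `x` and `B` are elements of a free group, the total exponent sum of `B` is zero
and `x * (B * x * B⁻¹)` is a nontrivial positive word, then `B = 1`.
-/

open List

namespace Pool.Agent.R655

open FreeGroup

variable {α : Type*}

/-- inverse letter -/
def il (l : α × Bool) : α × Bool := (l.1, !l.2)

@[simp] lemma il_il (l : α × Bool) : il (il l) = l := by
  simp [il]

lemma il_ne (l : α × Bool) : il l ≠ l := by
  intro h
  have := congrArg Prod.snd h
  simp [il] at this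

lemma il_inj {a b : α × Bool} (h : il a = il b) : a = b := by
  have := congrArg il h
  simpa using this

/-- all letters are positive -/
def Pos (L : List (α × Bool)) : Prop := ∀ l ∈ L, l.2 = true

/-- all letters are negative -/
def Neg (L : List (α × Bool)) : Prop := ∀ l ∈ L, l.2 = false

lemma red_rel_iff (a b : α × Bool) : (a.1 = b.1 → a.2 = b.2) ↔ b ≠ il a := by
  constructor
  · intro h hb
    subst hb
    have := h rfl
    simp [il] at this
  · intro h hab
    by_contra hne
    apply h
    refine Prod.ext hab.symm ?_
    simp only [il]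
    cases h1 : a.2 <;> cases h2 : b.2 <;> simp_all

lemma isReduced_append_iff {L₁ L₂ : List (α × Bool)} :
    IsReduced (L₁ ++ L₂) ↔ IsReduced L₁ ∧ IsReduced L₂ ∧
      ∀ x ∈ L₁.getLast?, ∀ y ∈ L₂.head?, y ≠ il x := by
  unfold FreeGroup.IsReduced
  rw [List.isChain_append]
  constructor
  · rintro ⟨h1, h2, h3⟩
    exact ⟨h1, h2, fun x hx y hy => (red_rel_iff x y).1 (h3 x hx y hy)⟩
  · rintro ⟨h1, h2, h3⟩
    exact ⟨h1, h2, fun x hx y hy => (red_rel_iff x y).2 (h3 x hx y hy)⟩

lemma nil_or_snoc {β : Type*} (L : List β) : L = [] ∨ ∃ L' c, L = L' ++ [c] := by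
  rcases List.eq_nil_or_concat L with h | ⟨L', c, h⟩
  · exact Or.inl h
  · exact Or.inr ⟨L', c, by rw [h, List.concat_eq_append]⟩

lemma invRev_eq (L : List (α × Bool)) : invRev L = (L.map il).reverse := rfl

lemma invRev_snoc (L : List (α × Bool)) (c : α × Bool) :
    invRev (L ++ [c]) = il c :: invRev L := by
  simp [invRev_eq]

lemma invRev_cons' (L : List (α × Bool)) (c : α × Bool) :
    invRev (c :: L) = invRev L ++ [il c] := by
  simp [invRev_eq]

lemma isReduced_invRev {L : List (α × Bool)} (h : IsReduced L) : IsReduced (invRev L) := by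
  classical
  rw [isReduced_iff_reduce_eq] at h ⊢
  rw [reduce_invRev, h]

lemma eq_of_mk_eq {L₁ L₂ : List (α × Bool)} (h₁ : IsReduced L₁) (h₂ : IsReduced L₂)
    (h : mk L₁ = mk L₂) : L₁ = L₂ := by
  classical
  have := reduce.sound h
  rwa [h₁.reduce_eq, h₂.reduce_eq] at this

lemma mk_il (c : α × Bool) : mk [il c] = (mk [c])⁻¹ := by
  rw [inv_mk]; rfl

lemma Pos.isReduced {L : List (α × Bool)} (h : Pos L) : IsReduced L := by
  unfold FreeGroup.IsReduced
  induction L with
  | nil => simp
  | cons a L ih =>
    cases L with
    | nil => simp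
    | cons b L =>
      rw [List.isChain_cons_cons]
      refine ⟨fun _ => ?_, ih fun l hl => h l (List.mem_cons_of_mem _ hl)⟩
      rw [h a (by simp), h b (by simp)]

/-- conjugating a nonempty reduced word `u` by a reduced word `B' ++ [c]` without cancellation -/
lemma conj_isReduced {B' u : List (α × Bool)} {c : α × Bool} (hB : IsReduced (B' ++ [c]))
    (hu : IsReduced u) (hne : u ≠ []) (h1 : u.head? ≠ some (il c)) (h2 : u.getLast? ≠ some c) :
    IsReduced ((B' ++ [c]) ++ u ++ invRev (B' ++ [c])) := by
  have hjoin : IsReduced ((B' ++ [c]) ++ u) := by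
    rw [isReduced_append_iff]
    refine ⟨hB, hu, ?_⟩
    intro x hx y hy
    simp at hx
    subst hx
    rintro rfl
    exact h1 (by simpa using hy)
  rw [isReduced_append_iff]
  refine ⟨hjoin, isReduced_invRev hB, ?_⟩
  intro x hx y hy
  rw [List.getLast?_append_of_ne_nil _ hne] at hx
  rw [invRev_snoc] at hy
  simp at hy
  subst hy
  intro h
  have := il_inj h
  subst this
  exact h2 (by simpa using hx)

lemma conj_word {B' u v : List (α × Bool)} {c : α × Bool} (hB : IsReduced (B' ++ [c]))
    (hu : IsReduced u) (hne : u ≠ []) (hv : IsReduced v)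
    (h1 : u.head? ≠ some (il c)) (h2 : u.getLast? ≠ some c)
    (h : mk (B' ++ [c]) * mk u * (mk (B' ++ [c]))⁻¹ = mk v) :
    v = (B' ++ [c]) ++ u ++ invRev (B' ++ [c]) := by
  refine eq_of_mk_eq hv (conj_isReduced hB hu hne h1 h2) ?_
  rw [← h, inv_mk, mul_mk, mul_mk]

/-- Cyclic reducedness in a convenient form. -/
def CR (L : List (α × Bool)) : Prop :=
  IsReduced L ∧ ∀ a ∈ L.getLast?, ∀ b ∈ L.head?, b ≠ il a

lemma Pos.cr {L : List (α × Bool)} (h : Pos L) : CR L := by
  refine ⟨h.isReduced, fun a ha b hb hab => ?_⟩
  have h1 := h a (List.mem_of_getLast? ha)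
  have h2 := h b (List.mem_of_mem_head? hb)
  rw [hab] at h2
  simp [il, h1] at h2

lemma CR.rotate_left {c : α × Bool} {u : List (α × Bool)} (h : CR (c :: u)) : CR (u ++ [c]) := by
  cases u with
  | nil => simpa using h
  | cons d u =>
    obtain ⟨h1, h2⟩ := h
    refine ⟨?_, ?_⟩
    · rw [isReduced_append_iff]
      refine ⟨(isReduced_cons_cons.1 h1).2, by simp, ?_⟩
      intro x hx y hy
      simp at hy
      subst hy
      apply h2 x _ c (by simp)
      simpa using hx
    · intro a ha b hb
      rw [List.getLast?_concat] at ha
      simp at ha hb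
      subst ha hb
      have := (isReduced_cons_cons.1 h1).1
      exact (red_rel_iff _ _).1 this

lemma CR.rotate_right {c : α × Bool} {u : List (α × Bool)} (h : CR (u ++ [c])) :
    CR (c :: u) := by
  cases u with
  | nil => simpa using h
  | cons d u =>
    obtain ⟨h1, h2⟩ := h
    refine ⟨?_, ?_⟩
    · rw [isReduced_cons_cons]
      refine ⟨(red_rel_iff _ _).2 (h2 c (by rw [List.getLast?_concat]; rfl) d (by simp)),
        (isReduced_append_iff.1 h1).1⟩
    · intro a ha b hb
      simp at hb
      subst hb
      have := (isReduced_append_iff.1 h1).2.2 a (by simpa using ha) c (by simp)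
      exact this

lemma conj_left (B' u' : List (α × Bool)) (c : α × Bool) :
    mk B' * mk (u' ++ [il c]) * (mk B')⁻¹ =
      mk (B' ++ [c]) * mk (il c :: u') * (mk (B' ++ [c]))⁻¹ := by
  have h1 : mk (il c :: u') = mk [il c] * mk u' := by rw [mul_mk]; rfl
  rw [h1, ← mul_mk, ← mul_mk, mk_il]
  group

lemma conj_right (B' u' : List (α × Bool)) (c : α × Bool) :
    mk B' * mk (c :: u') * (mk B')⁻¹ =
      mk (B' ++ [c]) * mk (u' ++ [c]) * (mk (B' ++ [c]))⁻¹ := by
  have h1 : mk (c :: u') = mk [c] * mk u' := by rw [mul_mk]; rfl
  rw [h1, ← mul_mk, ← mul_mk]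
  group

/-- Conjugate cyclically reduced words are cyclic rotations of each other. -/
lemma rotated_of_conj : ∀ (n : ℕ) (B u v : List (α × Bool)), B.length = n → IsReduced B →
    CR u → CR v → mk B * mk u * (mk B)⁻¹ = mk v → v ~r u := by
  intro n
  induction n with
  | zero =>
    intro B u v hn hB hu hv h
    have : B = [] := List.length_eq_zero_iff.1 hn
    subst this
    have : mk u = mk v := by
      rw [← h, ← one_eq_mk]; simp
    rw [eq_of_mk_eq hu.1 hv.1 this]
  | succ n ih =>
    intro B u v hn hB hu hv h
    rcases nil_or_snoc B with rfl | ⟨B', c, rfl⟩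
    · simp at hn
    have hn' : B'.length = n := by simpa using hn
    have hB' : IsReduced B' := (isReduced_append_iff.1 hB).1
    by_cases hne : u = []
    · subst hne
      have : mk v = mk [] := by
        rw [← h, ← one_eq_mk, mul_one, mul_inv_cancel]
      rw [eq_of_mk_eq hv.1 (by simp) this]
    by_cases h1 : u.head? = some (il c)
    · obtain ⟨u', rfl⟩ : ∃ u', u = il c :: u' := by
        cases u with
        | nil => simp at h1
        | cons d u' => simp at h1; exact ⟨u', by rw [h1]⟩
      have key : mk B' * mk (u' ++ [il c]) * (mk B')⁻¹ = mk v := by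
        rw [← h, conj_left]
      have := ih B' _ v hn' hB' hu.rotate_left hv key
      exact this.trans (List.isRotated_concat _ _)
    by_cases h2 : u.getLast? = some c
    · obtain ⟨u', rfl⟩ : ∃ u', u = u' ++ [c] := by
        rcases nil_or_snoc u with rfl | ⟨u', d, rfl⟩
        · simp at h2
        · simp at h2; exact ⟨u', by rw [h2]⟩
      have key : mk B' * mk (c :: u') * (mk B')⁻¹ = mk v := by
        rw [← h, conj_right]
      have := ih B' _ v hn' hB' hu.rotate_right hv key
      exact this.trans (List.isRotated_concat _ _).symm
    · exfalso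
      have hw := conj_word hB hu.1 hne hv.1 h1 h2 h
      subst hw
      obtain ⟨_, hv2⟩ := hv
      rcases B' with _ | ⟨d, B'⟩
      · refine hv2 (il c) ?_ c ?_ ?_
        · have e : ([] ++ [c] ++ u ++ invRev ([] ++ [c])) = (c :: u) ++ [il c] := by
            simp [invRev_eq]
          rw [e, List.getLast?_concat]
          rfl
        · simp
        · simp
      · refine hv2 (il d) ?_ d ?_ ?_
        · have e : (d :: B' ++ [c] ++ u ++ invRev (d :: B' ++ [c])) =
              (d :: B' ++ [c] ++ u ++ (il c :: invRev B')) ++ [il d] := by
            rw [invRev_snoc, invRev_cons']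
            simp
          rw [e, List.getLast?_concat]
          rfl
        · simp
        · simp

/-! ### Conjugating a positive word to a positive word -/

lemma last_cancel {B' p q : List (α × Bool)} {c : α × Bool} (hB : IsReduced (B' ++ [c]))
    (hp : Pos p) (hne : p ≠ []) (hq : Pos q)
    (h : mk (B' ++ [c]) * mk p * (mk (B' ++ [c]))⁻¹ = mk q) :
    p.head? = some (il c) ∨ p.getLast? = some c := by
  by_contra hcon
  push Not at hcon
  obtain ⟨h1, h2⟩ := hcon
  have hw := conj_word hB hp.isReduced hne hq.isReduced h1 h2 h
  subst hw
  have m1 := hq c (by simp)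
  have m2 := hq (il c) (by rw [invRev_snoc]; simp)
  simp [il, m1] at m2

lemma pos_or_neg : ∀ (n : ℕ) (B p q : List (α × Bool)), B.length = n → IsReduced B →
    p ≠ [] → Pos p → Pos q → mk B * mk p * (mk B)⁻¹ = mk q → Pos B ∨ Neg B := by
  intro n
  induction n with
  | zero =>
    intro B p q hn hB hne hp hq h
    have : B = [] := List.length_eq_zero_iff.1 hn
    subst this
    left
    intro l hl
    simp at hl
  | succ n ih =>
    intro B p q hn hB hne hp hq h
    rcases nil_or_snoc B with rfl | ⟨B', c, rfl⟩
    · simp at hn
    have hn' : B'.length = n := by simpa using hn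
    have hB' : IsReduced B' := (isReduced_append_iff.1 hB).1
    rcases last_cancel hB hp hne hq h with h1 | h2
    · obtain ⟨p', rfl⟩ : ∃ p', p = il c :: p' := by
        cases p with
        | nil => simp at h1
        | cons d u' => simp at h1; exact ⟨u', by rw [h1]⟩
      have hc : c.2 = false := by
        have := hp (il c) (by simp)
        simpa [il] using this
      have hp2 : Pos (p' ++ [il c]) := by
        intro l hl
        apply hp l
        simp at hl ⊢
        tauto
      have key : mk B' * mk (p' ++ [il c]) * (mk B')⁻¹ = mk q := by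
        rw [← h, conj_left]
      right
      have hnegB' : Neg B' := by
        rcases ih B' _ q hn' hB' (by simp) hp2 hq key with hP | hN
        · rcases nil_or_snoc B' with rfl | ⟨B'', c', rfl⟩
          · intro l hl; simp at hl
          · exfalso
            have hc' : c'.2 = true := hP c' (by simp)
            rcases last_cancel hB' hp2 (by simp) hq key with g1 | g2
            · have := hp2 _ (List.mem_of_mem_head? g1)
              simp [il, hc'] at this
            · rw [List.getLast?_concat] at g2
              have g3 : il c = c' := by simpa using g2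
              have := (isReduced_append_iff.1 hB).2.2 c' (by rw [List.getLast?_concat]; rfl) c
                (by simp)
              apply this
              rw [← g3]; simp
        · exact hN
      intro l hl
      rw [List.mem_append] at hl
      rcases hl with hl | hl
      · exact hnegB' l hl
      · simp at hl; rw [hl]; exact hc
    · obtain ⟨p', rfl⟩ : ∃ p', p = p' ++ [c] := by
        rcases nil_or_snoc p with rfl | ⟨u', d, rfl⟩
        · simp at h2
        · simp at h2; exact ⟨u', by rw [h2]⟩
      have hc : c.2 = true := hp c (by simp)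
      have hp2 : Pos (c :: p') := by
        intro l hl
        apply hp l
        simp at hl ⊢
        tauto
      have key : mk B' * mk (c :: p') * (mk B')⁻¹ = mk q := by
        rw [← h, conj_right]
      left
      have hposB' : Pos B' := by
        rcases ih B' _ q hn' hB' (by simp) hp2 hq key with hP | hN
        · exact hP
        · rcases nil_or_snoc B' with rfl | ⟨B'', c', rfl⟩
          · intro l hl; simp at hl
          · exfalso
            have hc' : c'.2 = false := hN c' (by simp)
            rcases last_cancel hB' hp2 (by simp) hq key with g1 | g2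
            · have g3 : c = il c' := by simpa using g1
              have := (isReduced_append_iff.1 hB).2.2 c' (by rw [List.getLast?_concat]; rfl) c
                (by simp)
              exact this g3
            · have := hp2 _ (List.mem_of_getLast? g2)
              simp [hc'] at this
      intro l hl
      rw [List.mem_append] at hl
      rcases hl with hl | hl
      · exact hposB' l hl
      · simp at hl; rw [hl]; exact hc

/-- total exponent sum -/
def esum : FreeGroup α →* Multiplicative ℤ := FreeGroup.lift fun _ => Multiplicative.ofAdd 1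

lemma esum_single (c : α × Bool) :
    esum (mk [c]) = Multiplicative.ofAdd (if c.2 then (1 : ℤ) else -1) := by
  obtain ⟨a, b⟩ := c
  cases b <;> simp [esum, FreeGroup.lift_mk]

lemma esum_pos {L : List (α × Bool)} (h : Pos L) :
    esum (mk L) = Multiplicative.ofAdd (L.length : ℤ) := by
  induction L with
  | nil => rw [← one_eq_mk]; simp
  | cons a L ih =>
    have h1 : mk (a :: L) = mk [a] * mk L := by rw [mul_mk]; rfl
    rw [h1, _root_.map_mul, ih fun l hl => h l (List.mem_cons_of_mem _ hl), esum_single,
      h a (by simp), ← ofAdd_add]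
    simp [add_comm]

lemma esum_neg {L : List (α × Bool)} (h : Neg L) :
    esum (mk L) = Multiplicative.ofAdd (-(L.length : ℤ)) := by
  induction L with
  | nil => rw [← one_eq_mk]; simp
  | cons a L ih =>
    have h1 : mk (a :: L) = mk [a] * mk L := by rw [mul_mk]; rfl
    rw [h1, _root_.map_mul, ih fun l hl => h l (List.mem_cons_of_mem _ hl), esum_single,
      h a (by simp), ← ofAdd_add]
    simp

lemma conj_pos_pos {B : FreeGroup α} {p q : List (α × Bool)} (hne : p ≠ []) (hp : Pos p)
    (hq : Pos q) (h : B * mk p * B⁻¹ = mk q) (hs : esum B = 1) : B = 1 := by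
  classical
  have hB : mk B.toWord = B := mk_toWord
  rw [← hB] at h hs ⊢
  have := pos_or_neg _ B.toWord p q rfl isReduced_toWord hne hp hq h
  have hl : B.toWord = [] := by
    rw [← List.length_eq_zero_iff]
    rcases this with hP | hN
    · rw [esum_pos hP] at hs
      have := congrArg Multiplicative.toAdd hs
      simpa using this
    · rw [esum_neg hN] at hs
      have := congrArg Multiplicative.toAdd hs
      simpa using this
  rw [hl, one_eq_mk]

/-! ### The rotation lemma -/

lemma isReduced_getElem? {h : List (α × Bool)} (hr : IsReduced h) {i : ℕ} {x y : α × Bool}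
    (hx : h[i]? = some x) (hy : h[i + 1]? = some y) : y ≠ il x := by
  unfold FreeGroup.IsReduced at hr
  rw [List.isChain_iff_getElem] at hr
  obtain ⟨hi, rfl⟩ := List.getElem?_eq_some_iff.1 hx
  obtain ⟨hi1, rfl⟩ := List.getElem?_eq_some_iff.1 hy
  exact (red_rel_iff _ _).1 (hr i hi1)

lemma rotation_lemma {p h q : List (α × Bool)} (hp : Pos p) (hq : Pos q) (hr : IsReduced h)
    (hrot : (invRev h ++ q) ~r (p ++ h)) : h = [] := by
  by_contra hne
  obtain ⟨k₀, hk₀⟩ := hrot.symm
  have hpos : 0 < h.length := List.length_pos_iff.2 hne
  set N := p.length + h.length with hN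
  have hlen : (p ++ h).length = N := by simp [hN]
  set k := k₀ % N with hk
  have hkN : k < N := Nat.mod_lt _ (by omega)
  have hk1 : (p ++ h).rotate k = invRev h ++ q := by
    rw [← hk₀, hk, ← hlen, List.rotate_mod]
  have E : ∀ m, m < h.length → ∀ i, i < N → (m + k = i ∨ m + k = i + N) →
      (p ++ h)[i]? = ((p ++ h)[N - 1 - m]?).map il := by
    intro m hm i hi hmk
    have h1 : ((p ++ h).rotate k)[m]? = (p ++ h)[i]? := by
      rw [List.getElem?_rotate (by omega), hlen]
      congr 1
      rcases hmk with h2 | h2
      · rw [h2]; exact Nat.mod_eq_of_lt hi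
      · rw [h2, Nat.add_mod_right]; exact Nat.mod_eq_of_lt hi
    rw [← h1, hk1, List.getElem?_append_left (by rw [invRev_length]; exact hm), invRev_eq,
      List.getElem?_reverse (by simpa using hm), List.getElem?_map, List.length_map,
      List.getElem?_append_right (by omega)]
    congr 2
    omega
  -- pairs
  have C : ∀ d i j, p.length ≤ i → j = i + d → j < N → (i + j + 1 = k ∨ i + j + 1 = k + N) →
      False := by
    intro d
    induction d using Nat.strong_induction_on with
    | _ d ih =>
      intro i j hi hj hjN hc
      have hE : (p ++ h)[i]? = ((p ++ h)[j]?).map il := by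
        have := E (N - 1 - j) (by omega) i (by omega) (by omega)
        rw [this]
        congr 2
        omega
      match d, ih, hj with
      | 0, _, hj =>
        have : j = i := by omega
        subst this
        have hlt : j < (p ++ h).length := by omega
        rw [List.getElem?_eq_getElem hlt] at hE
        simp only [Option.map_some, Option.some.injEq] at hE
        exact il_ne _ hE.symm
      | 1, _, hj =>
        subst hj
        have h1 : (p ++ h)[i + 1]? = h[(i - p.length) + 1]? := by
          rw [List.getElem?_append_right (by omega)]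
          congr 1
          omega
        have h0 : (p ++ h)[i]? = h[i - p.length]? := by
          rw [List.getElem?_append_right (by omega)]
        rw [h0, h1] at hE
        have hlt : (i - p.length) + 1 < h.length := by omega
        rw [List.getElem?_eq_getElem hlt] at hE
        refine isReduced_getElem? hr hE (List.getElem?_eq_getElem hlt) ?_
        simp
      | d + 2, ih, hj =>
        exact ih d (by omega) (i + 1) (j - 1) (by omega) (by omega) (by omega) (by omega)
  have hposu : Pos (p ++ h) := by
    intro l hl
    by_contra hneg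
    obtain ⟨i, hi, hil⟩ := List.getElem_of_mem hl
    have hi' : i < N := by omega
    have hip : p.length ≤ i := by
      by_contra hcon
      apply hneg
      apply hp
      rw [← hil, List.getElem_append_left (by omega)]
      exact List.getElem_mem _
    obtain ⟨m, hm, hmk⟩ : ∃ m, m < N ∧ (m + k = i ∨ m + k = i + N) := by
      by_cases hki : k ≤ i
      · exact ⟨i - k, by omega, by omega⟩
      · exact ⟨i + N - k, by omega, by omega⟩
    have h1 : ((p ++ h).rotate k)[m]? = some l := by
      rw [List.getElem?_rotate (by omega), hlen]
      have : (m + k) % N = i := by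
        rcases hmk with h2 | h2
        · rw [h2]; exact Nat.mod_eq_of_lt hi'
        · rw [h2, Nat.add_mod_right]; exact Nat.mod_eq_of_lt hi'
      rw [this, ← hil, List.getElem?_eq_getElem hi]
    have hmh : m < h.length := by
      by_contra hcon
      rw [hk1, List.getElem?_append_right (by rw [invRev_length]; omega)] at h1
      exact hneg (hq l (List.mem_of_getElem? h1))
    -- j = N - 1 - m
    rcases le_total i (N - 1 - m) with hij | hij
    · exact C ((N - 1 - m) - i) i (N - 1 - m) hip (by omega) (by omega) (by omega)
    · exact C (i - (N - 1 - m)) (N - 1 - m) i (by omega) (by omega) (by omega) (by omega)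
  obtain ⟨x, h', rfl⟩ : ∃ x h', h = x :: h' := by
    cases h with
    | nil => exact absurd rfl hne
    | cons x h' => exact ⟨x, h', rfl⟩
  have h1 : x.2 = true := hposu x (by simp)
  have h2 : il x ∈ (p ++ (x :: h')) := by
    rw [← hrot.mem_iff, invRev_cons']
    simp
  have h3 := hposu _ h2
  simp [il, h1] at h3

/-! ### The main induction -/

lemma cr_length_le {h v : List (α × Bool)} (hv : CR v) {B : FreeGroup α}
    (hB : B * mk h * B⁻¹ = mk v) : v.length ≤ h.length := by
  classical
  have hred : (reduce h).length ≤ h.length := by
    exact (reduce.red (L := h)).sublist.length_le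
  refine le_trans ?_ hred
  set g := reduce h with hg
  have hmk : mk h = mk g := (reduce.self).symm
  rw [hmk] at hB
  have hgr : IsReduced g := by
    rw [isReduced_iff_reduce_eq, hg, reduce.idem]
  have hdec := reduceCyclically.conj_conjugator_reduceCyclically g
  set c := reduceCyclically.conjugator g
  set r := reduceCyclically g with hrdef
  have hrlen : r.length ≤ g.length := by
    have := congrArg List.length hdec
    simp at this
    omega
  have hrcr : CR r := by
    have h1 := reduceCyclically.isCyclicallyReduced hgr
    refine ⟨h1.1, fun a ha b hb => ?_⟩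
    exact (red_rel_iff a b).1 (h1.2 a ha b hb)
  have hmkg : mk g = mk c * mk r * (mk c)⁻¹ := by
    rw [inv_mk, mul_mk, mul_mk, hdec]
  set D := B * mk c with hD
  have hDw : mk D.toWord = D := mk_toWord
  have hconj : mk D.toWord * mk r * (mk D.toWord)⁻¹ = mk v := by
    rw [hDw, hD, ← hB, hmkg]
    group
  have hrot := rotated_of_conj _ D.toWord r v rfl isReduced_toWord hrcr hv hconj
  rw [hrot.perm.length_eq]
  exact hrlen

lemma mk_cons' (s : α × Bool) (L : List (α × Bool)) : mk (s :: L) = mk [s] * mk L := by
  rw [mul_mk]; rfl

theorem main_induction : ∀ (n : ℕ) (h p q : List (α × Bool)), h.length = n → Pos p → Pos q →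
    p ++ q ≠ [] → ∀ B : FreeGroup α, esum B = 1 → B * mk (p ++ h) * B⁻¹ = mk (invRev h ++ q) →
    B = 1 := by
  classical
  intro n
  induction n using Nat.strong_induction_on with
  | _ n ih =>
    intro h p q hn hp hq hpq B hB hBh
    by_cases hne : h = []
    · subst hne
      have hne' : p ≠ [] := by
        rintro rfl
        simp only [List.append_nil, List.nil_append, invRev_empty] at hBh hpq
        rw [← one_eq_mk, mul_one, mul_inv_cancel, one_eq_mk] at hBh
        exact hpq (eq_of_mk_eq (by simp) hq.isReduced hBh).symm
      refine conj_pos_pos hne' hp hq ?_ hB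
      simpa using hBh
    -- (a) h not reduced
    by_cases hred : IsReduced h
    swap
    · have hlt : (reduce h).length < h.length := by
        have h1 : (reduce h).length ≤ h.length := by
          exact (reduce.red (L := h)).sublist.length_le
        rcases Nat.lt_or_ge (reduce h).length h.length with h2 | h2
        · exact h2
        · exfalso
          apply hred
          rw [isReduced_iff_reduce_eq]
          exact (List.Sublist.eq_of_length_le reduce.red.sublist h2)
      refine ih _ (by omega) (reduce h) p q rfl hp hq hpq B hB ?_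
      rw [← mul_mk, ← mul_mk, ← inv_mk, reduce.self, inv_mk, mul_mk, mul_mk]
      exact hBh
    by_cases hcb : ∃ s p1 h1, p = p1 ++ [s] ∧ h = il s :: h1
    · obtain ⟨s, p1, h1, rfl, rfl⟩ := hcb
      refine ih h1.length (by simp at hn; omega) h1 p1 (s :: q) rfl ?_ ?_ (by simp) B hB ?_
      · exact fun l hl => hp l (by simp [hl])
      · intro l hl
        rcases List.mem_cons.1 hl with rfl | hl
        · exact hp _ (by simp)
        · exact hq l hl
      · have e1 : mk (p1 ++ [s] ++ il s :: h1) = mk (p1 ++ h1) := by
          rw [← mul_mk, ← mul_mk, mk_cons' (il s), mk_il, ← mul_mk]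
          group
        have e2 : mk (invRev (il s :: h1) ++ q) = mk (invRev h1 ++ s :: q) := by
          rw [invRev_cons', il_il]
          simp
        rw [← e1, ← e2]
        exact hBh
    by_cases hcc : ∃ s h1 q1, h = s :: h1 ∧ q = s :: q1
    · obtain ⟨s, h1, q1, rfl, rfl⟩ := hcc
      refine ih h1.length (by simp at hn; omega) h1 (p ++ [s]) q1 rfl ?_ ?_ (by simp) B hB ?_
      · intro l hl
        rw [List.mem_append] at hl
        rcases hl with hl | hl
        · exact hp l hl
        · simp at hl; rw [hl]; exact hq _ (by simp)
      · exact fun l hl => hq l (by simp [hl])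
      · have e1 : mk (p ++ s :: h1) = mk (p ++ [s] ++ h1) := by simp
        have e2 : mk (invRev (s :: h1) ++ s :: q1) = mk (invRev h1 ++ q1) := by
          rw [invRev_cons', ← mul_mk, ← mul_mk, mk_cons' s, mk_il, ← mul_mk]
          group
        rw [← e1, ← e2]
        exact hBh
    by_cases hct : ∃ t p1 h1, p = t :: p1 ∧ h = h1 ++ [il t]
    · obtain ⟨t, p1, h1, rfl, rfl⟩ := hct
      have key := ih h1.length (by simp at hn; omega) h1 p1 (q ++ [t]) rfl ?_ ?_ (by simp)
        ((mk [t])⁻¹ * B * mk [t]) ?_ ?_
      · have : B = mk [t] * ((mk [t])⁻¹ * B * mk [t]) * (mk [t])⁻¹ := by group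
        rw [this, key]; group
      · exact fun l hl => hp l (by simp [hl])
      · intro l hl
        rw [List.mem_append] at hl
        rcases hl with hl | hl
        · exact hq l hl
        · simp at hl; rw [hl]; exact hp _ (by simp)
      · rw [_root_.map_mul, _root_.map_mul, hB, _root_.map_inv]; simp
      · have e1 : mk (t :: p1 ++ (h1 ++ [il t])) = mk [t] * mk (p1 ++ h1) * (mk [t])⁻¹ := by
          rw [← mk_il, mul_mk, mul_mk]; simp
        have e2 : mk (invRev (h1 ++ [il t]) ++ q) = mk [t] * mk (invRev h1 ++ (q ++ [t])) *
            (mk [t])⁻¹ := by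
          rw [invRev_snoc, il_il, ← mul_mk, ← mul_mk, ← mul_mk, mk_cons' t]
          group
        rw [e1, e2] at hBh
        have h3 : mk (invRev h1 ++ (q ++ [t])) = (mk [t])⁻¹ * (mk [t] * mk (invRev h1 ++ (q ++ [t])) *
            (mk [t])⁻¹) * mk [t] := by group
        rw [h3, ← hBh]
        group
    by_cases hcr : ∃ r q1 h1, q = q1 ++ [r] ∧ h = h1 ++ [r]
    · obtain ⟨r, q1, h1, rfl, rfl⟩ := hcr
      have key := ih h1.length (by simp at hn; omega) h1 (r :: p) q1 rfl ?_ ?_ (by simp)
        (mk [r] * B * (mk [r])⁻¹) ?_ ?_
      · have : B = (mk [r])⁻¹ * (mk [r] * B * (mk [r])⁻¹) * mk [r] := by group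
        rw [this, key]; group
      · intro l hl
        rcases List.mem_cons.1 hl with rfl | hl
        · exact hq _ (by simp)
        · exact hp l hl
      · exact fun l hl => hq l (by simp [hl])
      · rw [_root_.map_mul, _root_.map_mul, hB, _root_.map_inv]; simp
      · have e1 : mk (r :: p ++ h1) = mk [r] * mk (p ++ (h1 ++ [r])) * (mk [r])⁻¹ := by
          rw [List.cons_append, mk_cons' r, ← mul_mk (L₁ := p), ← mul_mk (L₁ := p), ← mul_mk]
          group
        have e2 : mk (invRev h1 ++ q1) = mk [r] * mk (invRev (h1 ++ [r]) ++ (q1 ++ [r])) *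
            (mk [r])⁻¹ := by
          rw [invRev_snoc, ← mul_mk, ← mul_mk, ← mul_mk, mk_cons' (il r), mk_il]
          group
        rw [e1, e2, ← hBh]
        group
    -- now everything is reduced
    exfalso
    have hredph : IsReduced (p ++ h) := by
      rw [isReduced_append_iff]
      refine ⟨hp.isReduced, hred, ?_⟩
      intro x hx y hy hyx
      apply hcb
      rcases nil_or_snoc p with rfl | ⟨p1, s, rfl⟩
      · simp at hx
      · rcases h with _ | ⟨z, h1⟩
        · simp at hy
        · simp at hx hy
          subst hx hy
          exact ⟨s, p1, h1, rfl, by rw [hyx]⟩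
    have hredhq : IsReduced (invRev h ++ q) := by
      rw [isReduced_append_iff]
      refine ⟨isReduced_invRev hred, hq.isReduced, ?_⟩
      intro x hx y hy hyx
      apply hcc
      rcases h with _ | ⟨z, h1⟩
      · exact absurd rfl hne
      · rcases q with _ | ⟨w, q1⟩
        · simp at hy
        · rw [invRev_cons', List.getLast?_concat] at hx
          simp at hx hy
          subst hx hy
          exact ⟨z, h1, q1, rfl, by rw [hyx]; simp⟩
    have crph : p ≠ [] → CR (p ++ h) := by
      intro hpne
      refine ⟨hredph, ?_⟩
      intro a ha b hb hba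
      apply hct
      rcases p with _ | ⟨t, p1⟩
      · exact absurd rfl hpne
      rcases nil_or_snoc h with rfl | ⟨h1, z, rfl⟩
      · exact absurd rfl hne
      rw [← List.append_assoc, List.getLast?_concat] at ha
      simp at ha hb
      subst ha hb
      refine ⟨_, p1, h1, rfl, ?_⟩
      rw [hba]; simp
    have crhq : q ≠ [] → CR (invRev h ++ q) := by
      intro hqne
      refine ⟨hredhq, ?_⟩
      intro a ha b hb hba
      apply hcr
      rcases nil_or_snoc q with rfl | ⟨q1, z, rfl⟩
      · exact absurd rfl hqne
      rcases nil_or_snoc h with rfl | ⟨h1, y, rfl⟩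
      · exact absurd rfl hne
      rw [← List.append_assoc, List.getLast?_concat] at ha
      rw [invRev_snoc] at hb
      simp at ha hb
      subst ha hb
      refine ⟨_, q1, h1, rfl, ?_⟩
      rw [il_inj hba]
    by_cases hpne : p = []
    · subst hpne
      have hqne : q ≠ [] := by simpa using hpq
      have := cr_length_le (crhq hqne) hBh
      rw [List.length_append, invRev_length, List.nil_append] at this
      have : q.length = 0 := by omega
      exact hqne (List.length_eq_zero_iff.1 this)
    · by_cases hqne : q = []
      · subst hqne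
        have hB' : B⁻¹ * mk (invRev h ++ []) * B⁻¹⁻¹ = mk (p ++ h) := by
          rw [← hBh]; group
        have := cr_length_le (crph hpne) hB'
        rw [List.length_append, List.append_nil, invRev_length] at this
        have : p.length = 0 := by omega
        exact hpne (List.length_eq_zero_iff.1 this)
      · have hBw : mk B.toWord = B := mk_toWord
        rw [← hBw] at hBh
        have hrot := rotated_of_conj _ B.toWord _ _ rfl isReduced_toWord (crph hpne) (crhq hqne)
          hBh
        exact hne (rotation_lemma hp hq hred hrot)

/-- If `x * (B * x * B⁻¹)` is a nontrivial positive word and the total exponent sum of `B`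
vanishes, then `B = 1`. -/
theorem eq_one_of_mul_conj_pos {x B : FreeGroup α} {L : List (α × Bool)} (hL : Pos L)
    (hne : L ≠ []) (hB : esum B = 1) (h : x * (B * x * B⁻¹) = mk L) : B = 1 := by
  classical
  refine main_induction _ x.toWord [] L rfl (by intro l hl; simp at hl) hL (by simpa using hne) B
    hB ?_
  rw [List.nil_append, ← mul_mk, ← inv_mk, mk_toWord, ← h]
  group

/-- Positive elements are represented by positive lists. -/
lemma exists_pos_of_mem {W : FreeGroup α}
    (h : W ∈ Submonoid.closure (Set.range (FreeGroup.of : α → FreeGroup α))) :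
    ∃ L : List (α × Bool), Pos L ∧ mk L = W := by
  induction h using Submonoid.closure_induction with
  | mem x hx =>
    obtain ⟨a, rfl⟩ := hx
    exact ⟨[(a, true)], by intro l hl; simp at hl; rw [hl], rfl⟩
  | one => exact ⟨[], by intro l hl; simp at hl, rfl⟩
  | mul x y _ _ hx hy =>
    obtain ⟨L₁, h1, rfl⟩ := hx
    obtain ⟨L₂, h2, rfl⟩ := hy
    refine ⟨L₁ ++ L₂, ?_, by rw [mul_mk]⟩
    intro l hl
    rw [List.mem_append] at hl
    rcases hl with hl | hl
    · exact h1 l hl
    · exact h2 l hl

end Pool.Agent.R655
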